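import Mathlib

/-!
# Polynomials along finite sums: uniform small fractional parts

For every degree `d`, number `m` and `ε > 0` there is `K` such that for every sequence `a` of
integers and all real polynomials `P_1, …, P_m` of degree at most `d` without constant term there
is a nonempty set `F` of indices below `K` with `‖P_j (∑ i ∈ F, a i)‖ < ε` for all `j`.
-/

set_option autoImplicit false

namespace Pool.Agent.Y882.HS

open Finset Polynomial

/-- distance to the nearest integer -/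
noncomputable def nn (x : ℝ) : ℝ := |x - round x|

theorem nn_le (x : ℝ) (z : ℤ) : nn x ≤ |x - z| := round_le x z

theorem nn_add (x y : ℝ) : nn (x + y) ≤ nn x + nn y := by
  refine (nn_le (x + y) (round x + round y)).trans ?_
  have e : x + y - ((round x + round y : ℤ) : ℝ) = (x - round x) + (y - round y) := by
    push_cast; ring
  rw [e]
  exact abs_add_le _ _

theorem nn_zero : nn 0 = 0 := by simp [nn]

theorem nn_half (x : ℝ) : nn x ≤ 1 / 2 := abs_sub_round x

/-- the derivative polynomial `P(s + X) - P(s) - P(X)` -/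
noncomputable def Dp (s : ℝ) (P : ℝ[X]) : ℝ[X] := P.comp (X + C s) - C (P.eval s) - P

theorem eval_Dp (s t : ℝ) (P : ℝ[X]) :
    (Dp s P).eval t = P.eval (t + s) - P.eval s - P.eval t := by
  simp [Dp]

theorem Dp_zero (s : ℝ) (P : ℝ[X]) (h : P.eval 0 = 0) : (Dp s P).eval 0 = 0 := by
  rw [eval_Dp, h]; simp

theorem Dp_deg (s : ℝ) (P : ℝ[X]) (d : ℕ) (hd : P.natDegree ≤ d + 1) :
    (Dp s P).natDegree ≤ d := by
  have hcomp : (P.comp (X + C s)).natDegree = P.natDegree := by
    rw [natDegree_comp, natDegree_X_add_C, mul_one]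
  -- coefficients above `d` vanish
  rw [natDegree_le_iff_coeff_eq_zero]
  intro n hn
  have hC : (C (P.eval s) : ℝ[X]).coeff n = 0 := by
    rw [coeff_C, if_neg (by omega)]
  rw [Dp, coeff_sub, coeff_sub, hC, sub_zero]
  rcases Nat.lt_or_ge (d + 1) n with h | h
  · rw [coeff_eq_zero_of_natDegree_lt (by rw [hcomp]; omega),
      coeff_eq_zero_of_natDegree_lt (by omega), sub_zero]
  · have hn' : n = d + 1 := by omega
    subst hn'
    rcases Nat.lt_or_ge P.natDegree (d + 1) with h2 | h2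
    · rw [coeff_eq_zero_of_natDegree_lt (by rw [hcomp]; omega),
        coeff_eq_zero_of_natDegree_lt h2, sub_zero]
    · have h3 : P.natDegree = d + 1 := le_antisymm hd h2
      have h4 : (P.comp (X + C s)).coeff (d + 1) = P.coeff (d + 1) := by
        have h5 : (P.comp (X + C s)).leadingCoeff = P.leadingCoeff := by
          rw [leadingCoeff_comp (by rw [natDegree_X_add_C]; exact one_ne_zero),
            leadingCoeff_X_add_C, one_pow, mul_one]
        rw [leadingCoeff, leadingCoeff, hcomp, h3] at h5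
        exact h5
      rw [h4, sub_self]

/-- The statement for degree at most `d`. -/
def St (d : ℕ) : Prop := ∀ (m : ℕ) (ε : ℝ), 0 < ε → ∃ K : ℕ, 1 ≤ K ∧
  ∀ (a : ℕ → ℝ) (P : Fin m → ℝ[X]), (∀ j, (P j).natDegree ≤ d ∧ (P j).eval 0 = 0) →
    ∃ F : Finset ℕ, F ⊆ range K ∧ F.Nonempty ∧ ∀ j, nn ((P j).eval (∑ i ∈ F, a i)) < ε

theorem st_zero : St 0 := by
  intro m ε hε
  refine ⟨1, le_rfl, fun a P hP => ⟨{0}, by simp, by simp, fun j => ?_⟩⟩
  obtain ⟨h1, h2⟩ := hP j
  have h3 := eq_C_of_natDegree_le_zero h1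
  rw [h3, eval_C] at h2
  rw [h3, h2]
  simp [nn, hε]

/-- choice of the blocks -/
theorem blocks {d : ℕ} (hd : St d) (m R : ℕ) (δ : ℝ) (hδ : 0 < δ) :
    ∃ K : ℕ, 1 ≤ K ∧ ∀ (a : ℕ → ℝ) (P : Fin m → ℝ[X]),
      (∀ j, (P j).natDegree ≤ d + 1 ∧ (P j).eval 0 = 0) → ∀ n ≤ R,
      ∃ F : ℕ → Finset ℕ, ∀ l < n, F l ⊆ Ico (l * K) ((l + 1) * K) ∧ (F l).Nonempty ∧
        ∀ k ≤ l, ∀ j, nn ((Dp (∑ r ∈ Ico k l, ∑ i ∈ F r, a i) (P j)).eval (∑ i ∈ F l, a i)) < δ := by
  obtain ⟨K, hK, h⟩ := hd (m * (R + 1)) δ hδ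
  refine ⟨K, hK, fun a P hP n => ?_⟩
  induction n with
  | zero => exact fun _ => ⟨fun _ => ∅, by simp⟩
  | succ n ih =>
    intro hn
    obtain ⟨F, hF⟩ := ih (by omega)
    -- the polynomials of the step
    let Q : Fin (m * (R + 1)) → ℝ[X] := fun x =>
      Dp (∑ r ∈ Ico ((finProdFinEquiv.symm x).2 : ℕ) n, ∑ i ∈ F r, a i)
        (P (finProdFinEquiv.symm x).1)
    have hQ : ∀ x, (Q x).natDegree ≤ d ∧ (Q x).eval 0 = 0 := fun x =>
      ⟨Dp_deg _ _ _ (hP _).1, Dp_zero _ _ (hP _).2⟩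
    obtain ⟨G, hG1, hG2, hG3⟩ := h (fun i => a (n * K + i)) Q hQ
    set G' : Finset ℕ := G.map (addLeftEmbedding (n * K)) with hG'
    have hsum : ∑ i ∈ G', a i = ∑ i ∈ G, a (n * K + i) := by
      rw [hG', sum_map]; rfl
    refine ⟨Function.update F n G', fun l hl => ?_⟩
    rcases Nat.lt_or_ge l n with hln | hln
    · have h1 := hF l hln
      have e1 : Function.update F n G' l = F l := Function.update_of_ne (by omega) _ _
      rw [e1]
      refine ⟨h1.1, h1.2.1, fun k hk j => ?_⟩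
      have e2 : ∑ r ∈ Ico k l, ∑ i ∈ Function.update F n G' r, a i =
          ∑ r ∈ Ico k l, ∑ i ∈ F r, a i := by
        refine sum_congr rfl fun r hr => ?_
        rw [mem_Ico] at hr
        rw [Function.update_of_ne (by omega)]
      rw [e2]
      exact h1.2.2 k hk j
    · have hl' : l = n := by omega
      subst hl'
      rw [Function.update_self]
      refine ⟨?_, ?_, fun k hk j => ?_⟩
      · intro x hx
        rw [hG', mem_map] at hx
        obtain ⟨y, hy, rfl⟩ := hx
        have := mem_range.1 (hG1 hy)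
        rw [mem_Ico, addLeftEmbedding_apply]
        constructor
        · omega
        · rw [add_mul, one_mul]; omega
      · rw [hG']
        exact hG2.map
      · have e2 : ∑ r ∈ Ico k l, ∑ i ∈ Function.update F l G' r, a i =
            ∑ r ∈ Ico k l, ∑ i ∈ F r, a i := by
          refine sum_congr rfl fun r hr => ?_
          rw [mem_Ico] at hr
          rw [Function.update_of_ne (by omega)]
        rw [e2, hsum]
        have h3 := hG3 (finProdFinEquiv (j, (⟨k, by omega⟩ : Fin (R + 1))))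
        simp only [Q, Equiv.symm_apply_apply] at h3
        exact h3

/-- pigeonhole in the torus -/
theorem pigeon (m q : ℕ) (hq : 1 ≤ q) (S : ℕ → Fin m → ℝ) :
    ∃ k l : ℕ, k < l ∧ l ≤ q ^ m ∧ ∀ j, nn (S l j - S k j) < 1 / q := by
  have hq0 : (0 : ℝ) < q := by exact_mod_cast hq
  have hlt : ∀ x : ℝ, ⌊(q : ℝ) * Int.fract x⌋₊ < q := by
    intro x
    rw [Nat.floor_lt (by have := Int.fract_nonneg x; positivity)]
    have := Int.fract_lt_one x
    nlinarith
  let f : ℕ → (Fin m → Fin q) := fun k j => ⟨⌊(q : ℝ) * Int.fract (S k j)⌋₊, hlt _⟩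
  have hcard : (Finset.univ : Finset (Fin m → Fin q)).card < (range (q ^ m + 1)).card := by
    rw [card_univ, Fintype.card_fun, Fintype.card_fin, Fintype.card_fin, card_range]
    omega
  obtain ⟨x, hx, y, hy, hne, hxy⟩ := exists_ne_map_eq_of_card_lt_of_maps_to hcard
    (f := f) (fun _ _ => mem_univ _)
  have key : ∀ k l : ℕ, f k = f l → ∀ j, nn (S l j - S k j) < 1 / q := by
    intro k l h j
    have h1 : ⌊(q : ℝ) * Int.fract (S k j)⌋₊ = ⌊(q : ℝ) * Int.fract (S l j)⌋₊ := by
      have := congrFun h j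
      simpa [f, Fin.ext_iff] using this
    have hk0 := Int.fract_nonneg (S k j)
    have hl0 := Int.fract_nonneg (S l j)
    have a1 := Nat.floor_le (show 0 ≤ (q : ℝ) * Int.fract (S k j) by positivity)
    have a2 := Nat.lt_floor_add_one ((q : ℝ) * Int.fract (S k j))
    have b1 := Nat.floor_le (show 0 ≤ (q : ℝ) * Int.fract (S l j) by positivity)
    have b2 := Nat.lt_floor_add_one ((q : ℝ) * Int.fract (S l j))
    rw [h1] at a1 a2
    have hab : |(q : ℝ) * (Int.fract (S l j) - Int.fract (S k j))| < 1 := by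
      rw [abs_lt]; constructor <;> linarith
    rw [abs_mul, abs_of_pos hq0] at hab
    have hab2 : |Int.fract (S l j) - Int.fract (S k j)| < 1 / q := by
      rw [lt_div_iff₀ hq0]; linarith
    refine lt_of_le_of_lt (nn_le _ (⌊S l j⌋ - ⌊S k j⌋)) ?_
    have e : S l j - S k j - ((⌊S l j⌋ - ⌊S k j⌋ : ℤ) : ℝ) =
        Int.fract (S l j) - Int.fract (S k j) := by
      rw [Int.fract, Int.fract]; push_cast; ring
    rw [e]
    exact hab2
  rw [mem_range] at hx hy
  rcases Nat.lt_or_gt_of_ne hne with h | h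
  · exact ⟨x, y, h, by omega, key x y hxy⟩
  · exact ⟨y, x, h, by omega, key y x hxy.symm⟩

theorem st_succ {d : ℕ} (hd : St d) : St (d + 1) := by
  intro m ε hε
  obtain ⟨q, hq⟩ := exists_nat_gt (2 / ε)
  have hq0 : (0 : ℝ) < q := lt_trans (by positivity) hq
  have hq1 : 1 ≤ q := by
    have : 0 < q := by exact_mod_cast hq0
    omega
  have hqε : 1 / (q : ℝ) < ε / 2 := by
    rw [div_lt_iff₀ hε] at hq
    rw [div_lt_div_iff₀ hq0 (by norm_num)]
    linarith
  set R : ℕ := q ^ m with hR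
  have hR1 : 1 ≤ R := Nat.one_le_pow _ _ hq1
  have hR0 : (0 : ℝ) < R := by exact_mod_cast hR1
  set δ : ℝ := ε / (2 * R) with hδ
  have hδ0 : 0 < δ := by positivity
  obtain ⟨K, hK, h⟩ := blocks hd m R δ hδ0
  refine ⟨R * K, Nat.mul_pos hR1 hK, fun a P hP => ?_⟩
  obtain ⟨F, hF⟩ := h a P hP R le_rfl
  set t : ℕ → ℝ := fun l => ∑ i ∈ F l, a i with ht
  obtain ⟨k, l, hkl, hlR, hp⟩ := pigeon m q hq1
    (fun n j => ∑ r ∈ range n, (P j).eval (t r))
  -- unions of consecutive blocks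
  have herr : ∀ n, k ≤ n → n ≤ R → ∀ j, ∃ e : ℝ, nn e ≤ (n - k : ℕ) * δ ∧
      (P j).eval (∑ r ∈ Ico k n, t r) = ∑ r ∈ Ico k n, (P j).eval (t r) + e := by
    intro n hn
    induction n, hn using Nat.le_induction with
    | base => 
      intro _ j
      exact ⟨0, by simp [nn_zero], by simp [(hP j).2]⟩
    | succ n hn ih =>
      intro hnR j
      obtain ⟨e, he1, he2⟩ := ih (by omega) j
      refine ⟨e + (Dp (∑ r ∈ Ico k n, t r) (P j)).eval (t n), ?_, ?_⟩
      · have h1 := (hF n (by omega)).2.2 k hn j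
        have h2 := nn_add e ((Dp (∑ r ∈ Ico k n, t r) (P j)).eval (t n))
        have h3 : ((n + 1 - k : ℕ) : ℝ) = ((n - k : ℕ) : ℝ) + 1 := by
          rw [show n + 1 - k = (n - k) + 1 by omega]; push_cast; ring
        rw [h3, add_mul, one_mul]
        have h4 : nn ((Dp (∑ r ∈ Ico k n, t r) (P j)).eval (t n)) < δ := h1
        linarith
      · rw [sum_Ico_succ_top hn, sum_Ico_succ_top hn, eval_Dp]
        rw [show t n + ∑ r ∈ Ico k n, t r = ∑ r ∈ Ico k n, t r + t n by ring, he2]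
        ring
  refine ⟨(Ico k l).biUnion F, ?_, ?_, fun j => ?_⟩
  · intro x hx
    rw [mem_biUnion] at hx
    obtain ⟨r, hr, hx⟩ := hx
    rw [mem_Ico] at hr
    have h1 := mem_Ico.1 ((hF r (by omega)).1 hx)
    rw [mem_range]
    calc x < (r + 1) * K := h1.2
      _ ≤ R * K := Nat.mul_le_mul_right _ (by omega)
  · obtain ⟨x, hx⟩ := (hF k (by omega)).2.1
    exact ⟨x, mem_biUnion.2 ⟨k, mem_Ico.2 ⟨le_rfl, hkl⟩, hx⟩⟩
  · have hdisj : (↑(Ico k l) : Set ℕ).PairwiseDisjoint F := by
      intro r hr s hs hrs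
      have hr' := mem_Ico.1 (mem_coe.1 hr)
      have hs' := mem_Ico.1 (mem_coe.1 hs)
      rw [Function.onFun, Finset.disjoint_left]
      intro x hx hx'
      have h1 := mem_Ico.1 ((hF r (by omega)).1 hx)
      have h2 := mem_Ico.1 ((hF s (by omega)).1 hx')
      rcases Nat.lt_or_gt_of_ne hrs with h3 | h3
      · have := Nat.mul_le_mul_right K (show r + 1 ≤ s by omega)
        omega
      · have := Nat.mul_le_mul_right K (show s + 1 ≤ r by omega)
        omega
    rw [sum_biUnion hdisj]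
    obtain ⟨e, he1, he2⟩ := herr l hkl.le hlR j
    have h1 := hp j
    have h2 : ∑ r ∈ range l, (P j).eval (t r) - ∑ r ∈ range k, (P j).eval (t r) =
        ∑ r ∈ Ico k l, (P j).eval (t r) := by
      rw [sum_Ico_eq_sub _ hkl.le]
    rw [h2] at h1
    change nn ((P j).eval (∑ r ∈ Ico k l, t r)) < ε
    rw [he2]
    have h3 := nn_add (∑ r ∈ Ico k l, (P j).eval (t r)) e
    have h4 : ((l - k : ℕ) : ℝ) * δ ≤ ε / 2 := by
      have h5 : ((l - k : ℕ) : ℝ) ≤ R := by exact_mod_cast (by omega : l - k ≤ R)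
      calc ((l - k : ℕ) : ℝ) * δ ≤ R * δ := mul_le_mul_of_nonneg_right h5 hδ0.le
        _ = ε / 2 := by rw [hδ]; field_simp
    linarith

theorem st : ∀ d, St d
  | 0 => st_zero
  | d + 1 => st_succ (st d)

end Pool.Agent.Y882.HS
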